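import Mathlib
import Pool.Agent.Helper910.TriDefs
import Pool.Agent.Helper910.TgDefs
import Pool.Agent.Helper910.TgN
import Pool.Agent.Helper910.TgM

/-!
# MP_0ea322_co: the facet-parallel covering number is symmetric in grid size and multiplicity; its slope
-/

namespace Pool.Agent.Results.MP_0ea322_co.FacetDuality

open Pool.Agent.Helper910.Tri

/-- Let `fF n d k` be the least size of a `k`-cover of `T_d(n)` by hyperplanes parallel to facets. It is at most the size
of every `k`-cover with at most `d+1` parallel classes, it is symmetric in `n` and `k`, and it equals `F*(k,d) n` up to an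
additive `(d+1) k`, where `F*(k,d) ≥ f*(k,d)` is the facet-parallel fractional covering number of `T_d(k)`. -/
theorem result (d n k : ℕ) (hd : 1 ≤ d) (hn : 1 ≤ n) (hk : 1 ≤ k) :
    fF n d k = fF k d n ∧
    (∀ (A : Option (Fin d) → Fin d → ℝ) (M : Multiset (Set (Fin d → ℝ))), IsCover d n k M →
      (∀ H ∈ M, ParallelTo A H) → fF n d k ≤ Multiset.card M) ∧
    fstar k d ≤ Fstar k d ∧ Fstar k d * n ≤ fF n d k ∧ (fF n d k : ℝ) ≤ Fstar k d * n + (d + 1) * k :=
  ⟨symF hd hn hk, fun A _ hM hF => fF_le_of_parallel hd hn hk A hM hF, fstar_le_Fstar hd hk,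
    (slopeF hd hn hk).1, (slopeF hd hn hk).2⟩

end Pool.Agent.Results.MP_0ea322_co.FacetDuality
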