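import Mathlib
import Pool.Agent.Helper910.TriDefs
import Pool.Agent.Helper910.TgDefs
import Pool.Agent.Helper910.TgI

/-!
# MP_0ea322_co: the inequality `f*(k,d) n ≤ |C|` for covers with at most `d+1` parallel classes, with a defect term
-/

namespace Pool.Agent.Results.MP_0ea322_co.FewDirections

open Pool.Agent.Helper910.Tri

open Classical in
/-- Let `M` be a `k`-cover of `T_d(n)`, let `A` be any `d+1` vectors, and let `r` be the number of members of `M` (with
multiplicity) that are not of the form `{x : A o · x = c}`. Then `f*(k,d) n ≤ |M| + r (f*(k,d) - 1)`. In particular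
`f*(k,d) n ≤ |M|` whenever the members of `M` lie in at most `d+1` parallel classes, e.g. if all are parallel to facets. -/
theorem result (d n k : ℕ) (hd : 1 ≤ d) (hn : 1 ≤ n) (hk : 1 ≤ k) (A : Option (Fin d) → Fin d → ℝ)
    (M : Multiset (Set (Fin d → ℝ))) (hM : IsCover d n k M) :
    fstar k d * n ≤ Multiset.card M
      + (Multiset.card (M.filter (fun H => ¬ ParallelTo A H)) : ℝ) * (fstar k d - 1) :=
  mainG hd hn hk A hM

end Pool.Agent.Results.MP_0ea322_co.FewDirections
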