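import Mathlib
import Pool.Agent.Helper910.TriDefs
import Pool.Agent.Helper910.Tri3
import Pool.Agent.Helper910.TgDefs
import Pool.Agent.Helper910.TgP
import Pool.Agent.Helper910.TgQ
import Pool.Agent.Helper910.TgR

/-!
# MP_0ea322_co: `f*(k,d) n ≤ f(n,d,k)` whenever `2n ≤ d+1` or `n+k ≤ d+2`
-/

namespace Pool.Agent.Results.MP_0ea322_co.HighDimension

open Pool.Agent.Helper910.Tri

theorem f_ge' {d k n : ℕ} (hd : 1 ≤ d) (hn : 1 ≤ n) (hk : 1 ≤ k) : (n : ℝ) + k - 1 ≤ f n d k := by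
  have hc := isCover_coverM hd k n hn
  have hne : {m | ∃ M : Multiset (Set (Fin d → ℝ)), IsCover d n k M ∧ Multiset.card M = m}.Nonempty := by
    refine ⟨_, coverM d k n, ⟨hc.1, fun x hx => hc.2 x ?_⟩, rfl⟩
    have hx' : ∑ i, x i < n := hx
    show ∑ i, x i < (d + 1) * n
    nlinarith
  obtain ⟨M, hM, hMc⟩ := Nat.sInf_mem hne
  unfold f
  rw [← hMc]
  have h1 := f_ge hn hk hM
  have h2 : n + k ≤ Multiset.card M + 1 := by omega
  have h3 : (n : ℝ) + k ≤ (Multiset.card M : ℝ) + 1 := by exact_mod_cast h2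
  linarith

/-- Q1 holds for all `d, n, k ≥ 1` with `2n ≤ d + 1` (every `k`), and for all `d, n, k ≥ 1` with `n + k ≤ d + 2`. -/
theorem result (d n k : ℕ) (hd : 1 ≤ d) (hn : 1 ≤ n) (hk : 1 ≤ k) (h : 2 * n ≤ d + 1 ∨ n + k ≤ d + 2) :
    fstar k d * n ≤ f n d k := by
  have hk0 : (1 : ℝ) ≤ k := by exact_mod_cast hk
  have hn0 : (1 : ℝ) ≤ n := by exact_mod_cast hn
  have hd0 : (1 : ℝ) ≤ d := by exact_mod_cast hd
  refine le_trans ?_ (f_ge' hd hn hk)
  rcases h with h | h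
  · have hu := fstar_upper hd hk
    have h' : 2 * (n : ℝ) ≤ d + 1 := by exact_mod_cast h
    have h4 : fstar k d * n ≤ (2 * (k : ℝ) + d - 1) / (d + 1) * n := mul_le_mul_of_nonneg_right hu (by linarith)
    refine h4.trans ?_
    rw [div_mul_eq_mul_div, div_le_iff₀ (by linarith)]
    nlinarith [mul_nonneg (sub_nonneg.2 hk0) (sub_nonneg.2 h')]
  · have hu := fstar_small hd hk (by omega)
    have h' : (n : ℝ) + k ≤ d + 2 := by exact_mod_cast h
    have hpos : (0 : ℝ) < (d : ℝ) + 2 - k := by linarith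
    have h4 : fstar k d * n ≤ ((d : ℝ) + 1) / ((d : ℝ) + 2 - k) * n := mul_le_mul_of_nonneg_right hu (by linarith)
    refine h4.trans ?_
    rw [div_mul_eq_mul_div, div_le_iff₀ hpos]
    nlinarith [mul_nonneg (sub_nonneg.2 hk0) (sub_nonneg.2 h')]

end Pool.Agent.Results.MP_0ea322_co.HighDimension
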