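import Mathlib
import Pool.Agent.Helper910.TriDefs
import Pool.Agent.Helper910.Tri1
import Pool.Agent.Helper910.Tri2
import Pool.Agent.Helper910.Tri3
import Pool.Agent.Helper910.TgDefs
import Pool.Agent.Helper910.TgI
import Pool.Agent.Helper910.TgP
import Pool.Agent.Helper910.Slope3

/-!
# MP_0ea322_co: the inequality `f*(k,d) n ≤ f(n,d,k)` up to a factor tending to one
-/

namespace Pool.Agent.Results.MP_0ea322_co.UpToFactor

open Pool.Agent.Helper910.Tri

theorem f_lower {d k n : ℕ} (hd : 1 ≤ d) (hn : 1 ≤ n) : (k : ℝ) * ell d * n ≤ f n d k := by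
  have hc := isCover_coverM hd k n hn
  have hne : {m | ∃ M : Multiset (Set (Fin d → ℝ)), IsCover d n k M ∧ Multiset.card M = m}.Nonempty := by
    refine ⟨_, coverM d k n, ⟨hc.1, fun x hx => hc.2 x ?_⟩, rfl⟩
    have hx' : ∑ i, x i < n := hx
    show ∑ i, x i < (d + 1) * n
    nlinarith
  obtain ⟨M, hM, hMc⟩ := Nat.sInf_mem hne
  unfold f
  rw [← hMc]
  exact cover_lower hd hM

/-- For all `d, n, k ≥ 1`: `f*(k,d) n ≤ (1 + (d-1)/(2k)) ((d + H_d)/(d+1)) f(n,d,k)`; and for `d = 3` every slope `C` of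
`f(·,3,k)` satisfies `f*(k,3) ≤ (1 + 1/k) C`. -/
theorem result (d n k : ℕ) (hd : 1 ≤ d) (hn : 1 ≤ n) (hk : 1 ≤ k) :
    fstar k d * n ≤ (1 + ((d : ℝ) - 1) / (2 * k)) * (((d : ℝ) + (harmonic d : ℝ)) / (d + 1)) * f n d k ∧
    (d = 3 → ∀ C : ℝ, IsSlope d k C → fstar k d ≤ (1 + 1 / (k : ℝ)) * C) := by
  have hk0 : (0 : ℝ) < k := by exact_mod_cast hk
  have hn0 : (0 : ℝ) < n := by exact_mod_cast hn
  have hd0 : (1 : ℝ) ≤ d := by exact_mod_cast hd
  have hH : (0 : ℝ) < (harmonic d : ℝ) := by exact_mod_cast harmonic_pos (by omega)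
  have hu := fstar_upper hd hk
  constructor
  · have h1 := f_lower (k := k) hd hn
    have h2 := ell_ge d hd
    have hD : (0 : ℝ) < (d : ℝ) + (harmonic d : ℝ) := by linarith
    have h3 : (k : ℝ) * (2 / ((d : ℝ) + (harmonic d : ℝ))) * n ≤ f n d k :=
      le_trans (mul_le_mul_of_nonneg_right (mul_le_mul_of_nonneg_left h2 hk0.le) hn0.le) h1
    have h4 : fstar k d * n ≤ (2 * (k : ℝ) + d - 1) / (d + 1) * n := mul_le_mul_of_nonneg_right hu hn0.le
    refine h4.trans ?_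
    have hc : (0 : ℝ) ≤ (1 + ((d : ℝ) - 1) / (2 * k)) * (((d : ℝ) + (harmonic d : ℝ)) / (d + 1)) := by
      apply mul_nonneg
      · have : (0 : ℝ) ≤ ((d : ℝ) - 1) / (2 * k) := div_nonneg (by linarith) (by positivity)
        linarith
      · positivity
    refine le_trans (le_of_eq ?_) (mul_le_mul_of_nonneg_left h3 hc)
    field_simp
    ring
  · rintro rfl C hC
    have h1 := Pool.Agent.Helper910.Slope3.slope_lower k C hC
    have h2 : (1 + 1 / (k : ℝ)) * ((k : ℝ) / 2) ≤ (1 + 1 / (k : ℝ)) * C :=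
      mul_le_mul_of_nonneg_left h1 (by positivity)
    refine le_trans (hu.trans (le_of_eq ?_)) h2
    push_cast
    field_simp
    ring

end Pool.Agent.Results.MP_0ea322_co.UpToFactor
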